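import Pool.Agent.helper70.BND.SpecH

/-!
# Project bnd (MP_376aaf_an), block H, row PH1

Phase 1: the decorations inside the concatenation of the words of the vertices are replaced by their first words.
-/

set_option autoImplicit false

open scoped Topology
open Finset

namespace Pool.Agent.BND.EX

/-- the rest of the word -/
noncomputable def PH1_rest (l : Lv) (J : ℕ) (M : ℕ → ℕ → ℕ) (u : List ℕ) : List (ℕ × ℝ) :=
  u.flatMap fun x => (0, 0) :: (0, 0) :: (Dl l.N J ++ vw (co l J (M x)))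

/-- the rest of the word, with vertices -/
noncomputable def PH1_restc (l : Lv) (J : ℕ) (M : ℕ → ℕ → ℕ) (u : List ℕ) : List ℕ :=
  u.flatMap fun x => 0 :: 0 :: (D0 l J ++ co l J (M x))

/-- goodness -/
theorem PH1_good (hDLF : DLF_stmt) (l : Lv) (hl : IsLv l) (J : ℕ) (κ₀ κ₁ κ : ℕ → ℕ) (Cc Bb : ℕ)
    (hκ : (∀ v, v < l.n → κ₀ v = κ v) ∨ (∀ v, v < l.n → κ₁ v = κ v))
    (w P R : List (ℕ × ℝ)) (x : ℕ × ℝ)
    (hw' : w = (0, 0) :: (Dl l.N J ++ (P ++ x :: R) ++ [(0, 0)]))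
    (h1 : ∀ a ∈ P ++ R, a.1 < l.n ∨ a.2 ∈ Sj J)
    (h2 : ∀ a ∈ P ++ x :: R, a.1 < l.N ∧ a.2 ∈ U)
    (h3 : ∀ v, v < l.n → cv l w v = κ v)
    (h4 : nvh l w ≤ Bb) : Gd l J κ₀ κ₁ Cc Bb w := by
  have h00 : ((0 : ℕ), (0 : ℝ)).1 < l.N ∧ ((0 : ℕ), (0 : ℝ)).2 ∈ U :=
    ⟨lt_of_lt_of_le hl.n0 hl.nN, by simp [U]⟩
  refine ⟨⟨P, x, R, hw', h1⟩, ?_, ?_, h4⟩
  · intro a ha
    rw [hw'] at ha
    simp only [List.mem_cons, List.mem_append, List.not_mem_nil, or_false] at ha
    rcases ha with rfl | (ha | ha) | rfl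
    · exact h00
    · obtain ⟨q1, q2, -⟩ := (hDLF l.N J).1 a ha
      exact ⟨q1, q2⟩
    · apply h2 a
      simp only [List.mem_cons, List.mem_append]
      exact ha
    · exact h00
  · rcases hκ with hκ | hκ
    · refine ⟨0, by simp [U], ?_⟩
      intro v hv
      simp only [h3 v hv, ← hκ v hv]
      simp
    · refine ⟨1, by simp [U], ?_⟩
      intro v hv
      simp only [h3 v hv, ← hκ v hv]
      simp

/-- letters of the rest -/
theorem PH1_rest_mem (hDLF : DLF_stmt) (l : Lv) (hl : IsLv l) (J : ℕ) (M : ℕ → ℕ → ℕ)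
    (hco : ∀ x, ∀ v ∈ co l J (M x), v < l.n) (u : List ℕ) :
    ∀ a ∈ PH1_rest l J M u, (a.1 < l.N ∧ a.2 ∈ U) ∧ (a.1 < l.n ∨ a.2 ∈ Sj J) := by
  intro a ha
  simp only [PH1_rest, List.mem_flatMap, List.mem_cons, List.mem_append] at ha
  have h0N : 0 < l.N := lt_of_lt_of_le hl.n0 hl.nN
  obtain ⟨x, -, rfl | rfl | ha | ha⟩ := ha
  · exact ⟨⟨h0N, by simp [U]⟩, Or.inl hl.n0⟩
  · exact ⟨⟨h0N, by simp [U]⟩, Or.inl hl.n0⟩
  · obtain ⟨q1, q2, q3⟩ := (hDLF l.N J).1 a ha
    exact ⟨⟨q1, q2⟩, Or.inr q3⟩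
  · simp only [vw, List.mem_map] at ha
    obtain ⟨v, hv, rfl⟩ := ha
    have := hco x v hv
    exact ⟨⟨lt_of_lt_of_le this hl.nN, by simp [U]⟩, Or.inl this⟩

/-- letters of words in the vertices -/
theorem PH1_vw_mem (l : Lv) (hl : IsLv l) (J : ℕ) (B : List ℕ) (hB : ∀ x ∈ B, x < l.n) :
    ∀ a ∈ vw B, (a.1 < l.N ∧ a.2 ∈ U) ∧ (a.1 < l.n ∨ a.2 ∈ Sj J) := by
  intro a ha
  simp only [vw, List.mem_map] at ha
  obtain ⟨v, hv, rfl⟩ := ha
  have := hB v hv
  exact ⟨⟨lt_of_lt_of_le this hl.nN, by simp [U]⟩, Or.inl this⟩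

/-- height of the rest -/
theorem PH1_rest_nvh (hCVF : CVF_stmt) (l : Lv) (hl : IsLv l) (J : ℕ) (M : ℕ → ℕ → ℕ)
    (hco : ∀ x, ∀ v ∈ co l J (M x), v < l.n) (u : List ℕ) :
    nvh l (PH1_rest l J M u) ≤ u.length * hw l.h (Dl l.N J) := by
  obtain ⟨-, c2, c3, -, c5, -⟩ := hCVF l hl
  induction u with
  | nil => simp [PH1_rest, nvh]
  | cons x u ih =>
    have e1 : PH1_rest l J M (x :: u) = vw [0, 0] ++ (Dl l.N J ++ (vw (co l J (M x)) ++ PH1_rest l J M u)) := by
      simp [PH1_rest]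
    rw [e1, c2, c2, c2, c5 _ (hco x), c5 [0, 0] (by
      intro y hy
      simp only [List.mem_cons, List.not_mem_nil, or_false, or_self] at hy
      rw [hy]; exact hl.n0), List.length_cons, Nat.succ_mul]
    have := c3 (Dl l.N J)
    omega

/-- the induction -/
theorem PH1_ind (hVWC : VWC_stmt) (hCVF : CVF_stmt) (hDLF : DLF_stmt) (hMKL : MKL_stmt) (hPDC : PDC_stmt)
    (hPTR : PTR_stmt) (hPRF : PRF_stmt) (A : LD) (hA : A.Gl) (J : ℕ) (hJ : 1 ≤ J) (M : ℕ → ℕ → ℕ)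
    (κ₀ κ₁ κ : ℕ → ℕ) (Cc Bb : ℕ)
    (hκ : (∀ v, v < A.n → κ₀ v = κ v) ∨ (∀ v, v < A.n → κ₁ v = κ v)) :
    ∀ (u B : List ℕ), (∀ x ∈ B, x < A.n) → B ≠ [] → (1 + u.length) * hw A.l.h (Dl A.l.N J) ≤ Bb →
      (∀ v, v < A.n → cv A.l ((0, 0) :: (Dl A.l.N J ++ (vw B ++ PH1_rest A.l J M u) ++ [(0, 0)])) v = κ v) →
      Pd A.l (Gd A.l J κ₀ κ₁ Cc Bb) ((0, 0) :: (Dl A.l.N J ++ (vw B ++ PH1_rest A.l J M u) ++ [(0, 0)]))
        (FX A.l J (B ++ PH1_restc A.l J M u)) (fun _ => 0) {a | 1 ≤ u.length ∧ a.1 < A.l.N ∧ a.2 ∈ U} := by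
  have hl : IsLv A.l := (hMKL A hA).1
  obtain ⟨hD0, hM⟩ := hVWC A J hA
  obtain ⟨hco, -⟩ := hM M
  obtain ⟨c1, c2, c3, c4, c5, c6, c7⟩ := hCVF A.l hl
  obtain ⟨d1, d2, -, -, -, d6, -, d8⟩ := hDLF A.l.N J
  have hn0 : 0 < A.n := hl.n0
  have hz : ∀ x ∈ [0], x < A.l.n := by
    intro x hx
    simp only [List.mem_cons, List.not_mem_nil, or_false] at hx
    rw [hx]; exact hn0
  have hzz : ∀ x ∈ [0, 0], x < A.l.n := by
    intro x hx
    simp only [List.mem_cons, List.not_mem_nil, or_false, or_self] at hx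
    rw [hx]; exact hn0
  have hfl : ∀ D₁ : List (ℕ × ℝ), (∀ a ∈ D₁, a.1 < A.l.N) → ∀ x ∈ D₁.flatMap (fun a => A.l.W a.1 false), x < A.l.n := by
    intro D₁ hD₁ x hx
    simp only [List.mem_flatMap] at hx
    obtain ⟨a, ha, hx⟩ := hx
    exact hl.mem _ (hD₁ a ha) _ _ hx
  intro u
  induction u with
  | nil =>
    intro B hB hBne hBb hcv
    have e1 : FX A.l J (B ++ PH1_restc A.l J M []) =
        (0, 0) :: (Dl A.l.N J ++ (vw B ++ PH1_rest A.l J M []) ++ [(0, 0)]) := by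
      simp [FX, PH1_rest, PH1_restc]
    rw [e1]
    have hQ : Gd A.l J κ₀ κ₁ Cc Bb ((0, 0) :: (Dl A.l.N J ++ (vw B ++ PH1_rest A.l J M []) ++ [(0, 0)])) := by
      obtain ⟨b, B', rfl⟩ := List.exists_cons_of_ne_nil hBne
      apply PH1_good hDLF A.l hl J κ₀ κ₁ κ Cc Bb hκ _ [] (vw B') (b, 0) (by simp [PH1_rest])
      · intro a ha
        exact (PH1_vw_mem A.l hl J B' (fun x hx => hB x (List.mem_cons_of_mem _ hx)) a (by simpa using ha)).2
      · intro a ha
        exact (PH1_vw_mem A.l hl J (b :: B') hB a (by simpa using ha)).1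
      · exact hcv
      · have e2 : (0, 0) :: (Dl A.l.N J ++ (vw (b :: B') ++ PH1_rest A.l J M []) ++ [(0, 0)]) =
            vw [0] ++ (Dl A.l.N J ++ (vw (b :: B') ++ vw [0])) := by
          simp [PH1_rest]
        rw [e2, c2, c2, c2, c5 _ hz, c5 _ hB]
        have := c3 (Dl A.l.N J)
        simp only [List.length_nil] at hBb
        omega
    exact (hPRF A.l _).2 _ _ _ _ _ _ ((hPRF A.l _).1 _ hQ) (fun _ _ => rfl) (by
      intro a ha
      simp at ha)
  | cons x u ih =>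
    intro B hB hBne hBb hcv
    have hB' : ∀ y ∈ B ++ ([0, 0] ++ (D0 A.l J ++ co A.l J (M x))), y < A.n := by
      intro y hy
      simp only [List.mem_append] at hy
      rcases hy with hy | hy | hy | hy
      · exact hB y hy
      · exact hzz y hy
      · exact hD0 y hy
      · exact hco x y hy
    have e1 : (0, 0) :: (Dl A.l.N J ++ (vw B ++ PH1_rest A.l J M (x :: u)) ++ [(0, 0)]) =
        (vw [0] ++ (Dl A.l.N J ++ (vw B ++ vw [0, 0]))) ++ (Dl A.l.N J ++ (vw (co A.l J (M x)) ++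
          (PH1_rest A.l J M u ++ vw [0]))) := by
      simp [PH1_rest]
    have e2 : (0, 0) :: (Dl A.l.N J ++ (vw (B ++ ([0, 0] ++ (D0 A.l J ++ co A.l J (M x)))) ++ PH1_rest A.l J M u) ++
        [(0, 0)]) =
        (vw [0] ++ (Dl A.l.N J ++ (vw B ++ vw [0, 0]))) ++ (vw ((Dl A.l.N J).flatMap fun a => A.l.W a.1 false) ++
          (vw (co A.l J (M x)) ++ (PH1_rest A.l J M u ++ vw [0]))) := by
      simp [D0]
    have e3 : FX A.l J (B ++ PH1_restc A.l J M (x :: u)) =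
        FX A.l J ((B ++ ([0, 0] ++ (D0 A.l J ++ co A.l J (M x)))) ++ PH1_restc A.l J M u) := by
      simp [PH1_restc]
    have hD0D : ∀ v, cv A.l (vw ((Dl A.l.N J).flatMap fun a => A.l.W a.1 false)) v = cv A.l (Dl A.l.N J) v := by
      intro v
      rw [c4 _ _ (hfl _ (fun a ha => (d1 a ha).1)), cv]
    have hrn := PH1_rest_nvh hCVF A.l hl J M hco u
    have hnD := c3 (Dl A.l.N J)
    simp only [List.length_cons] at hBb
    have hBb' : hw A.l.h (Dl A.l.N J) + hw A.l.h (Dl A.l.N J) + u.length * hw A.l.h (Dl A.l.N J) ≤ Bb := by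
      have : (1 + (u.length + 1)) * hw A.l.h (Dl A.l.N J) =
          hw A.l.h (Dl A.l.N J) + hw A.l.h (Dl A.l.N J) + u.length * hw A.l.h (Dl A.l.N J) := by ring
      omega
    have hstep := ih (B ++ ([0, 0] ++ (D0 A.l J ++ co A.l J (M x)))) hB' (by simp) (by
      have : (1 + u.length) * hw A.l.h (Dl A.l.N J) =
        hw A.l.h (Dl A.l.N J) + u.length * hw A.l.h (Dl A.l.N J) := by ring
      omega) (by
        intro v hv
        rw [← hcv v hv, e1, e2]
        simp only [c1, hD0D])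
    rw [e2] at hstep
    have hlet : ∀ (D₁ D₂ : List (ℕ × ℝ)), Dl A.l.N J = D₁ ++ D₂ → (∀ a ∈ D₁, a.1 < A.l.N) ∧
        (∀ a ∈ D₂, (a.1 < A.l.N ∧ a.2 ∈ U) ∧ (a.1 < A.l.n ∨ a.2 ∈ Sj J)) := by
      intro D₁ D₂ h
      refine ⟨fun a ha => (d1 a (by rw [h]; exact List.mem_append_left _ ha)).1, fun a ha => ?_⟩
      obtain ⟨q1, q2, q3⟩ := d1 a (by rw [h]; exact List.mem_append_right _ ha)
      exact ⟨⟨q1, q2⟩, Or.inr q3⟩
    obtain ⟨b, B₁, hbB⟩ := List.exists_cons_of_ne_nil hBne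
    have hpd := hPDC A.l (Gd A.l J κ₀ κ₁ Cc Bb) (Dl A.l.N J) (vw [0] ++ (Dl A.l.N J ++ (vw B ++ vw [0, 0])))
      (vw (co A.l J (M x)) ++ (PH1_rest A.l J M u ++ vw [0])) hl (fun a ha => ⟨(d1 a ha).1, (d1 a ha).2.1⟩)
      (by
        intro D₁ D₂ h
        obtain ⟨k1, k2⟩ := hlet D₁ D₂ h
        apply PH1_good hDLF A.l hl J κ₀ κ₁ κ Cc Bb hκ _ []
          (vw B₁ ++ (vw [0, 0] ++ (vw (D₁.flatMap fun a => A.l.W a.1 false) ++ (D₂ ++ (vw (co A.l J (M x)) ++
            PH1_rest A.l J M u))))) (b, 0)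
        · rw [hbB]
          simp
        · intro a ha
          simp only [List.nil_append, List.mem_append] at ha
          rcases ha with ha | ha | ha | ha | ha | ha
          · exact (PH1_vw_mem A.l hl J B₁ (fun x hx => hB x (by rw [hbB]; exact List.mem_cons_of_mem _ hx)) a ha).2
          · exact (PH1_vw_mem A.l hl J _ hzz a ha).2
          · exact (PH1_vw_mem A.l hl J _ (hfl D₁ k1) a ha).2
          · exact (k2 a ha).2
          · exact (PH1_vw_mem A.l hl J _ (hco x) a ha).2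
          · exact (PH1_rest_mem hDLF A.l hl J M hco u a ha).2
        · intro a ha
          simp only [List.nil_append, List.mem_append, List.mem_cons] at ha
          rcases ha with rfl | ha | ha | ha | ha | ha | ha
          · have : b < A.n := hB b (by rw [hbB]; simp)
            exact ⟨lt_of_lt_of_le this hl.nN, by simp [U]⟩
          · exact (PH1_vw_mem A.l hl J B₁ (fun x hx => hB x (by rw [hbB]; exact List.mem_cons_of_mem _ hx)) a ha).1
          · exact (PH1_vw_mem A.l hl J _ hzz a ha).1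
          · exact (PH1_vw_mem A.l hl J _ (hfl D₁ k1) a ha).1
          · exact (k2 a ha).1
          · exact (PH1_vw_mem A.l hl J _ (hco x) a ha).1
          · exact (PH1_rest_mem hDLF A.l hl J M hco u a ha).1
        · intro v hv
          rw [← hcv v hv, e1]
          have hcD : cv A.l (Dl A.l.N J) v = cv A.l D₁ v + cv A.l D₂ v := by rw [h, c1]
          have hcf : cv A.l (vw (D₁.flatMap fun a => A.l.W a.1 false)) v = cv A.l D₁ v := by
            rw [c4 _ _ (hfl D₁ k1), cv]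
          simp only [c1, hcf, hcD]
          ring
        · simp only [c2, c5 _ hz, c5 _ hB, c5 _ hzz, c5 _ (hfl D₁ k1), c5 _ (hco x)]
          have q1 : hw A.l.h (Dl A.l.N J) = hw A.l.h D₁ + hw A.l.h D₂ := by
            rw [← hw_append, ← h]
          have q2 := c3 D₂
          omega)
      (by
        intro D₁ a D₂ t h ht
        obtain ⟨k1, k2⟩ := hlet D₁ (a :: D₂) h
        have haN : a.1 < A.l.N := (k2 a (by simp)).1.1
        apply PH1_good hDLF A.l hl J κ₀ κ₁ κ Cc Bb hκ _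
          (vw B ++ (vw [0, 0] ++ vw (D₁.flatMap fun a => A.l.W a.1 false))) (D₂ ++ (vw (co A.l J (M x)) ++
            PH1_rest A.l J M u)) (a.1, t)
        · simp
        · intro c hc
          simp only [List.mem_append] at hc
          rcases hc with (hc | hc | hc) | hc | hc | hc
          · exact (PH1_vw_mem A.l hl J B hB c hc).2
          · exact (PH1_vw_mem A.l hl J _ hzz c hc).2
          · exact (PH1_vw_mem A.l hl J _ (hfl D₁ k1) c hc).2
          · exact (k2 c (List.mem_cons_of_mem _ hc)).2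
          · exact (PH1_vw_mem A.l hl J _ (hco x) c hc).2
          · exact (PH1_rest_mem hDLF A.l hl J M hco u c hc).2
        · intro c hc
          simp only [List.mem_append, List.mem_cons] at hc
          rcases hc with (hc | hc | hc) | rfl | hc | hc | hc
          · exact (PH1_vw_mem A.l hl J B hB c hc).1
          · exact (PH1_vw_mem A.l hl J _ hzz c hc).1
          · exact (PH1_vw_mem A.l hl J _ (hfl D₁ k1) c hc).1
          · exact ⟨haN, ht⟩
          · exact (k2 c (List.mem_cons_of_mem _ hc)).1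
          · exact (PH1_vw_mem A.l hl J _ (hco x) c hc).1
          · exact (PH1_rest_mem hDLF A.l hl J M hco u c hc).1
        · intro v hv
          rw [← hcv v hv, e1]
          have e4 : vw [0] ++ (Dl A.l.N J ++ (vw B ++ vw [0, 0])) ++ (vw (D₁.flatMap fun a => A.l.W a.1 false) ++
              (a.1, t) :: (D₂ ++ (vw (co A.l J (M x)) ++ (PH1_rest A.l J M u ++ vw [0])))) =
              vw [0] ++ (Dl A.l.N J ++ (vw B ++ vw [0, 0])) ++ (vw (D₁.flatMap fun a => A.l.W a.1 false) ++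
              ([(a.1, t)] ++ (D₂ ++ (vw (co A.l J (M x)) ++ (PH1_rest A.l J M u ++ vw [0]))))) := by
            simp
          rw [e4]
          have hcD : cv A.l (Dl A.l.N J) v = cv A.l D₁ v + (cv A.l [a] v + cv A.l D₂ v) := by
            rw [h, c1, ← List.singleton_append, c1]
          have hca : cv A.l [(a.1, t)] v = cv A.l [a] v := by rw [c6, c6]
          have hcf : cv A.l (vw (D₁.flatMap fun a => A.l.W a.1 false)) v = cv A.l D₁ v := by
            rw [c4 _ _ (hfl D₁ k1), cv]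
          simp only [c1, hcf, hcD, hca]
          ring
        · have e4 : vw [0] ++ (Dl A.l.N J ++ (vw B ++ vw [0, 0])) ++ (vw (D₁.flatMap fun a => A.l.W a.1 false) ++
              (a.1, t) :: (D₂ ++ (vw (co A.l J (M x)) ++ (PH1_rest A.l J M u ++ vw [0])))) =
              vw [0] ++ (Dl A.l.N J ++ (vw B ++ vw [0, 0])) ++ (vw (D₁.flatMap fun a => A.l.W a.1 false) ++
              (((a.1, t) :: D₂) ++ (vw (co A.l J (M x)) ++ (PH1_rest A.l J M u ++ vw [0])))) := by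
            simp
          rw [e4]
          simp only [c2, c5 _ hz, c5 _ hB, c5 _ hzz, c5 _ (hfl D₁ k1), c5 _ (hco x)]
          have q1 : hw A.l.h (Dl A.l.N J) = hw A.l.h D₁ + (A.l.h a.1 + hw A.l.h D₂) := by
            rw [← hw_cons, ← hw_append, ← h]
          have q2 := c3 ((a.1, t) :: D₂)
          rw [hw_cons] at q2
          simp only at q2
          omega)
    have htr := hPTR A.l _ _ _ _ _ _ _ _ hpd hstep
    rw [e1, e3]
    refine (hPRF A.l _).2 _ _ _ _ _ _ htr (fun _ _ => by simp) ?_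
    rintro ⟨e, s⟩ ⟨-, he, hs⟩
    left
    refine ⟨(e, 1), d2 e 1 he (d6 hJ), rfl, hs.1, hs.2⟩

theorem PH1 (hCAT : CAT_stmt) (hVWC : VWC_stmt) (hCVF : CVF_stmt) (hDLF : DLF_stmt) (hMKL : MKL_stmt) (hPDC : PDC_stmt) (hPTR : PTR_stmt) (hPRF : PRF_stmt) : PH1_stmt := by
  intro A J M u κ₀ κ₁ Cc Bb hA hJ hu hM hκ hBb
  have hl : IsLv A.l := (hMKL A hA).1
  obtain ⟨hD0, hM'⟩ := hVWC A J hA
  obtain ⟨hco, hct, hx1, hx2⟩ := hM' M
  obtain ⟨c1, c2, c3, c4, c5, c6, c7⟩ := hCVF A.l hl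
  obtain ⟨hx2, -⟩ := hx2 u hu hM
  rw [hCAT A.l J M u hu]
  obtain ⟨v, u', rfl⟩ := List.exists_cons_of_ne_nil hu
  have e1 : (0, 0) :: (Dl A.l.N J ++ dc A.l J M (v :: u') ++ [(0, 0)]) =
      (0, 0) :: (Dl A.l.N J ++ (vw (co A.l J (M v)) ++ PH1_rest A.l J M u') ++ [(0, 0)]) := rfl
  have e2 : ct A.l J M (v :: u') = co A.l J (M v) ++ PH1_restc A.l J M u' := rfl
  rw [e1, e2]
  have hcr : ∀ w, cv A.l (PH1_rest A.l J M u') w = (PH1_restc A.l J M u').count w := by
    intro w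
    have hz : ∀ x ∈ [0, 0], x < A.l.n := by
      intro x hx
      simp only [List.mem_cons, List.not_mem_nil, or_false, or_self] at hx
      rw [hx]; exact hl.n0
    clear hBb hκ hx2 hM hu e1 e2
    induction u' with
    | nil => simp [PH1_rest, PH1_restc, cv]
    | cons x u'' ih =>
      have e3 : PH1_rest A.l J M (x :: u'') = vw [0, 0] ++ (Dl A.l.N J ++ (vw (co A.l J (M x)) ++
          PH1_rest A.l J M u'')) := by simp [PH1_rest]
      have e4 : PH1_restc A.l J M (x :: u'') = [0, 0] ++ (D0 A.l J ++ (co A.l J (M x) ++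
          PH1_restc A.l J M u'')) := by simp [PH1_restc]
      rw [e3, e4, c1, c1, c1, ih, c4 _ _ hz, c4 _ _ (hco x), c7]
      simp only [List.count_append]
  refine (hPRF A.l _).2 _ _ _ _ _ _ (PH1_ind hVWC hCVF hDLF hMKL hPDC hPTR hPRF A hA J hJ M κ₀ κ₁ (kp M (v :: u'))
    Cc Bb hκ u' (co A.l J (M v)) (hco v) ?_ ?_ ?_) (fun _ _ => rfl) ?_
  · exact (hx1 v (hM v (by simp))).2.2.2.2.1
  · rw [List.length_cons] at hBb
    rwa [add_comm 1]
  · intro w hw
    rw [← hx2 w hw, e2, fc]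
    have hz : ∀ x ∈ [0], x < A.l.n := by
      intro x hx
      simp only [List.mem_cons, List.not_mem_nil, or_false] at hx
      rw [hx]; exact hl.n0
    have e3 : (0, 0) :: (Dl A.l.N J ++ (vw (co A.l J (M v)) ++ PH1_rest A.l J M u') ++ [(0, 0)]) =
        vw [0] ++ (Dl A.l.N J ++ (vw (co A.l J (M v)) ++ (PH1_rest A.l J M u' ++ vw [0]))) := by simp
    have e4 : (0 :: (D0 A.l J ++ (co A.l J (M v) ++ PH1_restc A.l J M u') ++ [0])) =
        [0] ++ (D0 A.l J ++ (co A.l J (M v) ++ (PH1_restc A.l J M u' ++ [0]))) := by simp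
    rw [e3, e4, c1, c1, c1, c1, c7, c4 _ _ hz, c4 _ _ (hco v), hcr]
    simp only [List.count_append]
  · rintro a ⟨h1, h2, h3⟩
    rw [List.length_cons] at h1
    exact ⟨by omega, h2, h3⟩

end Pool.Agent.BND.EX
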